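import Pool.Agent.LRN.Defs

/-!
# Squad LRN (MP_5f2860_nt): rows of the statement SNU (short new units), with proofs (author helper5)

DELIVER: `Pool/Agent/HelperNN_LRS/XXX.lean`, import `Pool.Agent.LRS.Stmts`, namespace
`Pool.Agent.LRS.HNN`, `theorem xxx (hypotheses = rows in uses, in this order) : XxxStmt`. `IsNew u`: the
norms of the unit `u` to all proper subfields are roots of unity; `MaxNew v`: `v` is a maximal
independent family of new units.
-/

set_option autoImplicit false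

open Polynomial NumberField Filter Topology
open Pool.Agent.Helper85_Leo (LeopoldtAt HasLog unitVal)

namespace Pool.Agent.LRS

open Pool.Agent.LRG (Indep Bdd)
open Pool.Agent.LRN (IsNew MaxNew)

/-- **SBF** (100 lines). A number field of degree `n` has at most `2 ^ (n * n)` subfields, which are
determined by their relations on the embeddings.
PROOF. First claim: `E ≤ E'` when `σ = τ` on `E'` implies `σ = τ` on `E`: let `b ∈ E`, `b ∉ E'`; then
`minpoly E' b` has degree `≥ 2` and is separable, so it has two different roots in `ℂ` over any fixed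
embedding of `E'`; the two embeddings of `E'(b)` extend to `K` (`ℂ` is algebraically closed), they agree on
`E'` and differ at `b`, a contradiction. (Mathlib: `IntermediateField.fixedField`/normal closure, or
`Algebra.IsAlgebraic` lifts `IntermediateField.exists_algHom_of_splits`..) Second claim: the map
from the subfields to the relations (functions `(K →+* ℂ) × (K →+* ℂ) → Prop`) is injective, there are
`2 ^ (n * n)` relations (`NumberField.Embeddings.card`). -/
def SbfStmt : Prop := ∀ (K : Type) [Field K] [NumberField K] (n : ℕ), Module.finrank ℚ K = n →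
  Finite (IntermediateField ℚ K) ∧ Nat.card (IntermediateField ℚ K) ≤ 2 ^ (n * n)

/-- **AVE** (100 lines). The norm to one subfield as an endomorphism of the unit group.
PROOF. `A u` = the image in `(𝓞 K)ˣ` of the norm of `u` to `E` (norm of a unit is a unit). For
`σ : K →+* ℂ`: `σ (N_{K/E} u) = ∏ τ u` over the embeddings `τ` of `K` with `τ = σ` on `E`
(`Algebra.norm_eq_prod_embeddings` for `K` over `E` with `ℂ` an `E`-algebra by `σ`; bijection of the
`E`-algebra homomorphisms with these `τ`). Take logarithms of absolute values (no factor is zero).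
Last claim: if all sums over the classes vanish, all conjugates of `N_{K/E} u` have absolute value `1`
(every embedding of `E` extends to `K`), so it is a root of unity
(`NumberField.Embeddings.pow_eq_one_of_norm_eq_one`). -/
def AveStmt : Prop := ∀ (K : Type) [Field K] [NumberField K] (E : IntermediateField ℚ K),
  ∃ (A : (𝓞 K)ˣ →* (𝓞 K)ˣ), (∀ u, ((A u : 𝓞 K) : K) =
      algebraMap E K (Algebra.norm E ((u : 𝓞 K) : K))) ∧
    (∀ (u : (𝓞 K)ˣ) (σ : K →+* ℂ), Real.log ‖σ ((A u : 𝓞 K) : K)‖ =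
      ∑ᶠ τ ∈ {τ : K →+* ℂ | ∀ b ∈ E, τ b = σ b}, Real.log ‖τ ((u : 𝓞 K) : K)‖) ∧
    ∀ u : (𝓞 K)ˣ, (∀ σ : K →+* ℂ,
      ∑ᶠ τ ∈ {τ : K →+* ℂ | ∀ b ∈ E, τ b = σ b}, Real.log ‖τ ((u : 𝓞 K) : K)‖ = 0) →
      ∃ m : ℕ, 0 < m ∧ Algebra.norm E ((u : 𝓞 K) : K) ^ m = 1

/-- **AVG** (150 lines; uses SBF, AVE). The sum of the norms to all proper subfields.
PROOF. `Φ u = ∏ E, A_E u` over the (finitely many, SBF) proper subfields `E`, and
`P σ τ` = the number of the proper `E` with `σ = τ` on `E`; it is symmetric, with entries in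
`[0, 2 ^ (n * n)]`. The formula for the logarithms is the sum of those of AVE. If `u` is new, all `A_E u` are
torsion. If `∑ τ, P σ τ log|τ u| = 0` for all `σ`, multiply by `log|σ u|` and sum:
`0 = ∑ E, ∑ σ, x σ * (∑ τ ~_E σ, x τ) = ∑ E, ∑ (classes C of ~_E), (∑ τ ∈ C, x τ) ^ 2`, so all class sums
vanish, and the last claim of AVE says that `u` is new. (Without classes:
`∑ σ, x σ y σ = ∑ σ, y σ ^ 2 / |class of σ|`, where `y σ` is the class sum, which is constant on the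
classes.) -/
def AvgStmt : Prop := ∀ (K : Type) [Field K] [NumberField K] (n : ℕ), Module.finrank ℚ K = n →
  ∃ (Φ : (𝓞 K)ˣ →* (𝓞 K)ˣ) (P : Matrix (K →+* ℂ) (K →+* ℂ) ℤ), P.IsSymm ∧
    (∀ σ τ, 0 ≤ P σ τ ∧ P σ τ ≤ 2 ^ (n * n)) ∧
    (∀ (u : (𝓞 K)ˣ) (σ : K →+* ℂ), Real.log ‖σ ((Φ u : 𝓞 K) : K)‖ =
      ∑ τ : K →+* ℂ, (P σ τ : ℝ) * Real.log ‖τ ((u : 𝓞 K) : K)‖) ∧
    (∀ u, IsNew u → ∃ m : ℕ, 0 < m ∧ Φ u ^ m = 1) ∧
    ∀ u : (𝓞 K)ˣ, (∀ σ : K →+* ℂ,
      ∑ τ : K →+* ℂ, (P σ τ : ℝ) * Real.log ‖τ ((u : 𝓞 K) : K)‖ = 0) → IsNew u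

/-- **MPL** (120 lines). A polynomial which maps a symmetric integer matrix to its kernel.
PROOF. Let first `ι = Fin n`. For `P` symmetric write `P.charpoly = X ^ d * g`, `g.coeff 0 ≠ 0`
(`Polynomial.exists_eq_pow_rootMultiplicity_mul_and_not_dvd` or divide by the highest power of `X`; the
charpoly is monic, so not zero). Cayley-Hamilton: `P ^ d * g(P) = 0`. CLAIM `P * g(P) = 0`: if
`P ^ (k + 2) * Y = 0` with `P` symmetric, then `Z = P ^ (k + 1) * Y` satisfies `P * Z = 0` and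
`Zᵀ * Z = Yᵀ * P ^ (k + 1) * Z = 0` (for `k + 1 ≥ 1`), and `Zᵀ * Z = 0` implies `Z = 0` over `ℤ` (diagonal entries are sums
of squares; `Matrix.transpose_mul_self_eq_zero`/`conjTranspose_mul_self_eq_zero` over `ℤ` or `ℝ`). So the
exponent goes down to `1` (if `d = 0` multiply by `P`). The matrices over `Fin n` with entries in `[0, B]` are
finitely many; choose `g` for each and let `C` be the maximum of all entries of all `g(P)`. For a general
`ι` transport along an equivalence `ι ≃ Fin n` (`Matrix.reindexAlgEquiv ℤ ℤ`, `Polynomial.aeval_algEquiv`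
or `map_aeval`). -/
def MplStmt : Prop := ∀ (n B : ℕ), ∃ C : ℝ, 0 ≤ C ∧ ∀ (ι : Type) [Fintype ι] [DecidableEq ι],
  Fintype.card ι = n → ∀ P : Matrix ι ι ℤ, P.IsSymm → (∀ i j, 0 ≤ P i j ∧ P i j ≤ B) →
  ∃ g : ℤ[X], g.coeff 0 ≠ 0 ∧ P * aeval P g = 0 ∧ ∀ i j, |((aeval P g i j : ℤ) : ℝ)| ≤ C

/-- **PSI** (100 lines). Polynomials in an endomorphism of the unit group.
PROOF. `Φ` as an element of the ring `AddMonoid.End (Additive (𝓞 K)ˣ)` (the endomorphism ring of a
commutative group), `Ψ` = its image under `aeval Φ : ℤ[X] →ₐ[ℤ] End`. The formula for the logarithms: for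
endomorphisms with such matrices it is preserved by sums, by products (the matrix product) and by integer
multiples: `Polynomial.induction_on`. If `Φ u ^ m = 1`, then `Φ ^ (k + 1) u` has finite order for all `k`, and
`g = C (g.coeff 0) + X * divX g` gives `Ψ u = u ^ (g.coeff 0) * (torsion)`. (Or avoid the ring and define
`Ψ u = ∏ k ∈ range, ((Φ ^ k) u) ^ g.coeff k`.) -/
def PsiStmt : Prop := ∀ (K : Type) [Field K] [NumberField K] (Φ : (𝓞 K)ˣ →* (𝓞 K)ˣ)
  [DecidableEq (K →+* ℂ)] (P : Matrix (K →+* ℂ) (K →+* ℂ) ℤ),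
  (∀ (u : (𝓞 K)ˣ) (σ : K →+* ℂ), Real.log ‖σ ((Φ u : 𝓞 K) : K)‖ =
      ∑ τ : K →+* ℂ, (P σ τ : ℝ) * Real.log ‖τ ((u : 𝓞 K) : K)‖) →
  ∀ g : ℤ[X], ∃ Ψ : (𝓞 K)ˣ →* (𝓞 K)ˣ,
    (∀ (u : (𝓞 K)ˣ) (σ : K →+* ℂ), Real.log ‖σ ((Ψ u : 𝓞 K) : K)‖ =
      ∑ τ : K →+* ℂ, (aeval P g σ τ : ℝ) * Real.log ‖τ ((u : 𝓞 K) : K)‖) ∧
    ∀ (u : (𝓞 K)ˣ) (m : ℕ), 0 < m → Φ u ^ m = 1 →
      ∃ m' : ℕ, 0 < m' ∧ Ψ u ^ m' = u ^ (g.coeff 0 * (m' : ℤ))

/-- **FRK** (60 lines). Independent units in the number of the rank have finite index.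
PROOF. As `hpow` in the proof of `Pool.Agent.Helper85_Leo.leopoldtAt_of_logs` (`Helper85_Leo/Units.lean`): the
`rank + 1` elements `w, u i` of `Additive (𝓞 K)ˣ` are linearly dependent over `ℤ` (`Units.finrank_eq`), the
coefficient of `w` is not `0` by `Indep u`; make it positive. -/
def FrkStmt : Prop := ∀ (K : Type) [Field K] [NumberField K] (r : ℕ) (u : Fin r → (𝓞 K)ˣ),
  Units.rank K = r → Indep u → ∀ w : (𝓞 K)ˣ, ∃ (m : ℕ) (c : Fin r → ℤ), 0 < m ∧ w ^ m = ∏ i, u i ^ c i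

/-- **EXT** (80 lines). A maximal independent subfamily.
PROOF. Choose an injective `f : Fin s → Fin r` with `Indep (w ∘ f)` and `s` maximal (`s ≤ r`; `s = 0` is
possible, the empty family is independent). For every `i` the family `w ∘ f` extended by `w i` is
dependent (if `i` is in the range of `f` the claim is trivial): `w i ^ a * ∏ (w (f j)) ^ c j = 1` with
`a ≠ 0` by `Indep (w ∘ f)`; solve for `w i ^ |a|`. -/
def ExtStmt : Prop := ∀ (K : Type) [Field K] [NumberField K] (r : ℕ) (w : Fin r → (𝓞 K)ˣ),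
  ∃ (s : ℕ) (f : Fin s → Fin r), s ≤ r ∧ Indep (fun j => w (f j)) ∧
    ∀ i, ∃ (m : ℕ) (c : Fin s → ℤ), 0 < m ∧ w i ^ m = ∏ j, w (f j) ^ c j

/-- **SNU** (150 lines; uses AVG, MPL, PSI, FRK, EXT). Short new units.
PROOF. `Φ, P` from AVG, `C₀, g` from MPL for `n`, `B = 2 ^ (n * n)` (`Fintype.card (K →+* ℂ) = n`), `Ψ` from PSI,
`w i = Ψ (u i)`. (1) `w i` is new: `∑ τ, P σ τ log|τ (Ψ u)| = ∑ ρ, (P * g(P)) σ ρ log|ρ u| = 0`, last claim of
AVG. (2) Size: `|τ u| ≤ X` for all `τ`, and the product of all `|τ u|` is `1` (norm of a unit), so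
`|log|τ u|| ≤ n log X`, and `log|σ w| ≤ n * C₀ * n log X`: `Bdd w (X ^ (C₀ n ^ 2))`, and `A` = a natural number `≥ C₀ n ^ 2`. (3) `f, s` from
EXT, `v = w ∘ f`. `MaxNew v`: let `y` be new. AVG, PSI: `Ψ y ^ m' = y ^ (g₀ m')`, `g₀ ≠ 0`. FRK: `y ^ a = ∏ u i ^ c i`,
`Ψ y ^ a = ∏ w i ^ c i`, and a power of every `w i` is a product of powers of the `v j`: multiply the exponents
to get `y ^ (g₀ m' a D) = ∏ v j ^ (..)` with positive `m', a, D`; if `g₀ < 0` invert. -/
def SnuStmt : Prop := ∀ n r : ℕ, ∃ A : ℕ, ∀ (K : Type) [Field K] [NumberField K]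
  (u : Fin r → (𝓞 K)ˣ) (X : ℝ), Module.finrank ℚ K = n → Units.rank K = r → 1 ≤ X → Indep u →
  Bdd u X → ∃ (s : ℕ) (v : Fin s → (𝓞 K)ˣ), s ≤ r ∧ MaxNew v ∧ Bdd v (X ^ A)

end Pool.Agent.LRS
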